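import Pool.Agent.helper38.OB.Spec

set_option autoImplicit false

namespace Pool.Agent.OB

open Finset

theorem PRC_nonneg (V : Finset ℕ) (w : ℕ → ℝ) (hw : ∀ x ∈ V, 0 ≤ w x ∧ w x ≤ 1) (A : Finset ℕ) (hA : A ⊆ V) :
    0 ≤ (∏ x ∈ A, w x) * ∏ x ∈ V \ A, (1 - w x) := by
  apply mul_nonneg
  · exact prod_nonneg fun x hx => (hw x (hA hx)).1
  · exact prod_nonneg fun x hx => sub_nonneg.2 (hw x (mem_sdiff.1 hx).1).2

theorem PRC (hPRA : PRA_stmt) : PRC_stmt := by
  classical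
  intro V w hw ι F T hT a ha
  have h1 : ∑ i ∈ F, ∏ x ∈ T i, w x = ∑ i ∈ F, pr V w (fun A => T i ⊆ A) := by
    apply sum_congr rfl
    intro i hi
    rw [(hPRA V w hw).2 (T i) (hT i hi)]
  rw [h1]
  have h2 : ∑ i ∈ F, pr V w (fun A => T i ⊆ A) =
      ∑ A ∈ V.powerset, ((inn F T A).card : ℝ) * ((∏ x ∈ A, w x) * ∏ x ∈ V \ A, (1 - w x)) := by
    unfold pr
    simp only [sum_filter]
    rw [sum_comm]
    apply sum_congr rfl
    intro A _
    have h3 : ((inn F T A).card : ℝ) = ∑ i ∈ F, (if T i ⊆ A then (1 : ℝ) else 0) := by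
      unfold inn
      rw [card_filter]
      push_cast
      rfl
    rw [h3, sum_mul]
    apply sum_congr rfl
    intro i _
    split_ifs <;> simp
  rw [h2, le_div_iff₀ ha]
  unfold pr
  rw [sum_mul, sum_filter]
  apply sum_le_sum
  intro A hA
  have hq := PRC_nonneg V w hw A (mem_powerset.1 hA)
  split_ifs with h
  · rw [mul_comm]
    exact mul_le_mul_of_nonneg_right h hq
  · exact mul_nonneg (Nat.cast_nonneg _) hq

end Pool.Agent.OB
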